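import Pool.Agent.V5helper86.GF.Alg

/-!
# Fields which are not closed under Artin and Schreier equations
-/

set_option autoImplicit false
set_option linter.style.haveILetI false

open Polynomial

namespace Pool.Agent.V5helper86.GF

/-- A finite field is not closed under Artin and Schreier equations. -/
theorem not_surjective_of_finite (K : Type*) [Field K] [Finite K] (p : ℕ) (hp : 1 < p) :
    ∃ a : K, ∀ b : K, b ^ p - b ≠ a := by
  by_contra h
  push Not at h
  have hsurj : Function.Surjective (fun x : K => x ^ p - x) := h
  have hinj := Finite.injective_iff_surjective.mpr hsurj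
  have h01 : (0 : K) = 1 := hinj (by
    simp only [one_pow, sub_self]
    rw [zero_pow (by omega), sub_zero])
  exact zero_ne_one h01

/-- A field of rational functions is not closed under Artin and Schreier equations. -/
theorem ratFunc_not_surjective (k : Type*) [Field k] (p : ℕ) (hp : 1 < p) :
    ∀ b : RatFunc k, b ^ p - b ≠ RatFunc.X := by
  intro b hb
  have hint : IsIntegral k[X] b := by
    refine ⟨X ^ p - (X + C X), ?_, ?_⟩
    · apply monic_X_pow_sub
      rw [degree_X_add_C]
      exact_mod_cast hp
    · simp only [eval₂_sub, eval₂_pow, eval₂_X, eval₂_add, eval₂_C, RatFunc.algebraMap_X]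
      rw [← hb]
      ring
  obtain ⟨f, hf⟩ := IsIntegrallyClosed.isIntegral_iff.mp hint
  have h1 : f ^ p - f = X := by
    apply RatFunc.algebraMap_injective k
    rw [map_sub, map_pow, hf, hb, RatFunc.algebraMap_X]
  have h2 := congrArg natDegree h1
  rw [natDegree_X] at h2
  rcases Nat.eq_zero_or_pos f.natDegree with h0 | h0
  · have h3 : (f ^ p - f).natDegree ≤ 0 := by
      refine (natDegree_sub_le _ _).trans ?_
      rw [natDegree_pow, h0]
      simp
    omega
  · have h3 : (f ^ p - f).natDegree = p * f.natDegree := by
      rw [natDegree_sub_eq_left_of_natDegree_lt, natDegree_pow]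
      rw [natDegree_pow]
      nlinarith
    rw [h3] at h2
    have : p ∣ 1 := ⟨_, h2.symm⟩
    have := Nat.le_of_dvd one_pos this
    omega

/-- A finite extension of a field of rational functions is not closed under Artin and Schreier
equations. -/
theorem not_surjective_of_functionField (k K : Type*) [Field k] [Field K] [Algebra (RatFunc k) K]
    [FiniteDimensional (RatFunc k) K] (p : ℕ) [Fact p.Prime] [CharP K p] :
    ∃ a : K, ∀ b : K, b ^ p - b ≠ a := by
  by_contra h
  push Not at h
  have hp : 1 < p := (Fact.out : p.Prime).one_lt
  haveI : CharP (RatFunc k) p :=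
    (algebraMap (RatFunc k) K).charP (algebraMap (RatFunc k) K).injective p
  obtain ⟨E, hE⟩ : ∃ E : IntermediateField (RatFunc k) K, E = separableClosure (RatFunc k) K :=
    ⟨_, rfl⟩
  haveI : Algebra.IsSeparable (RatFunc k) E := by
    rw [hE]
    infer_instance
  have hEs : ∀ c : E, ∃ b : E, b ^ p - b = c * 1 := by
    intro c
    obtain ⟨b, hb⟩ := h (c : K)
    have hbE : b ∈ E := by
      have h1 : IsSeparable E b := by
        have h3 : aeval b ((X ^ p - (X + C c)) : E[X]) = 0 := by
          simp only [map_sub, map_pow, aeval_X, map_add, aeval_C]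
          change b ^ p - (b + (c : K)) = 0
          rw [← hb]
          ring
        have h4 : ((X ^ p - (X + C c)) : E[X]).Separable := by
          haveI : CharP E p := charP_of_injective_algebraMap (algebraMap (RatFunc k) E).injective p
          rw [separable_def]
          refine ⟨0, -1, ?_⟩
          simp [derivative_X_pow, CharP.cast_eq_zero]
          ring
        exact h4.of_dvd (minpoly.dvd _ _ h3)
      have h2 : IsSeparable (RatFunc k) b := IsSeparable.of_algebra_isSeparable_of_isSeparable _ h1
      rw [hE]
      exact mem_separableClosure_iff.mpr h2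
    exact ⟨⟨b, hbE⟩, Subtype.ext (by
      change b ^ p - b = (c : K) * 1
      rw [hb, mul_one])⟩
  obtain ⟨b, hb⟩ := artinSchreier_descend (RatFunc k) E p 1 one_ne_zero hEs RatFunc.X
  exact ratFunc_not_surjective k p hp b hb

end Pool.Agent.V5helper86.GF
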