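import Mathlib

/-!
# Artin and Schreier covers separate points: the algebraic part
-/

set_option autoImplicit false
set_option linter.style.haveILetI false
set_option linter.unusedSectionVars false

universe u

open TensorProduct Polynomial

namespace Pool.Agent.V5helper86.GF

/-- The trace of a finite separable extension in characteristic `p` commutes with `p`-th powers. -/
theorem trace_pow_char (K L : Type*) [Field K] [Field L] [Algebra K L] [FiniteDimensional K L]
    [Algebra.IsSeparable K L] (p : ℕ) [Fact p.Prime] [CharP K p] (b : L) :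
    Algebra.trace K L (b ^ p) = (Algebra.trace K L b) ^ p := by
  have : CharP (AlgebraicClosure K) p := charP_of_injective_algebraMap (algebraMap K _).injective p
  have : ExpChar (AlgebraicClosure K) p := ExpChar.prime Fact.out
  apply (algebraMap K (AlgebraicClosure K)).injective
  rw [RingHom.map_pow, trace_eq_sum_embeddings (AlgebraicClosure K),
    trace_eq_sum_embeddings (AlgebraicClosure K), sum_pow_char]
  simp

/-- If all multiples of `d ≠ 0` in a finite separable extension of `K` are of the form `b ^ p - b`, then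
this holds for all elements of `K`. -/
theorem artinSchreier_descend (K L : Type*) [Field K] [Field L] [Algebra K L] [FiniteDimensional K L]
    [Algebra.IsSeparable K L] (p : ℕ) [Fact p.Prime] [CharP K p] (d : L) (hd : d ≠ 0)
    (h : ∀ c : L, ∃ b : L, b ^ p - b = c * d) (a : K) : ∃ b : K, b ^ p - b = a := by
  obtain ⟨e, he⟩ := Algebra.trace_surjective K L a
  obtain ⟨b, hb⟩ := h (e / d)
  refine ⟨Algebra.trace K L b, ?_⟩
  rw [← trace_pow_char, ← map_sub, hb, div_mul_cancel₀ _ hd, he]

/-- The polynomial `X ^ p - X - a` as a standard étale pair. -/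
noncomputable def asPair (T : Type*) [CommRing T] (p : ℕ) [Fact p.Prime] [CharP T p] (a : T) :
    StandardEtalePair T where
  f := X ^ p - (X + C a)
  monic_f := by
    nontriviality T
    apply monic_X_pow_sub
    have hp : 1 < p := (Fact.out : p.Prime).one_lt
    rw [degree_X_add_C]
    exact_mod_cast hp
  g := 1
  cond := ⟨-1, 0, 0, by simp [derivative_X_pow]⟩

section
variable (T : Type*) [CommRing T] (p : ℕ) [Fact p.Prime] [CharP T p] (a : T)

theorem asPair_f : (asPair T p a).f = X ^ p - (X + C a) := rfl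
theorem asPair_g : (asPair T p a).g = 1 := rfl

instance asPair_finite : Module.Finite T (asPair T p a).Ring := by
  have h1 := (asPair T p a).monic_f.finite_adjoinRoot
  have hu : IsUnit (AdjoinRoot.mk (asPair T p a).f (asPair T p a).g) := by
    rw [asPair_g, map_one]
    exact isUnit_one
  have e := (IsLocalization.atUnit (AdjoinRoot (asPair T p a).f)
    (Localization.Away (AdjoinRoot.mk (asPair T p a).f (asPair T p a).g)) _ hu).restrictScalars T
  exact Module.Finite.equiv (e.trans (asPair T p a).equivAwayAdjoinRoot.symm).toLinearEquiv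

theorem asPair_hasMap {B : Type*} [CommRing B] [Algebra T B] (x : B) :
    (asPair T p a).HasMap x ↔ x ^ p - x = algebraMap T B a := by
  unfold StandardEtalePair.HasMap
  rw [asPair_f, asPair_g]
  simp only [map_sub, map_pow, aeval_X, map_add, aeval_C, map_one, isUnit_one, and_true]
  constructor
  · intro h
    linear_combination h
  · intro h
    linear_combination h

end

/-! ## Points of covers with values in a separable closure -/

section Points
variable {K R Ω : Type u} [Field K] [CommRing R] [Field Ω] [Algebra K R] [Algebra K Ω] [Algebra R Ω]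
  [IsScalarTower K R Ω]

/-- The Galois action on the points of a cover over a rational point. -/
def galPt (hx : ∀ r : R, ∃ k : K, algebraMap R Ω r = algebraMap K Ω k) {S : Type u} [CommRing S]
    [Algebra R S] (σ : Ω ≃ₐ[K] Ω) (φ : S →ₐ[R] Ω) : S →ₐ[R] Ω :=
  { (σ : Ω →+* Ω).comp (φ : S →+* Ω) with
    commutes' := fun r => by
      change σ (φ (algebraMap R S r)) = algebraMap R Ω r
      obtain ⟨k, hk⟩ := hx r
      rw [φ.commutes, hk, σ.commutes] }

theorem galPt_apply (hx : ∀ r : R, ∃ k : K, algebraMap R Ω r = algebraMap K Ω k) {S : Type u}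
    [CommRing S] [Algebra R S] (σ : Ω ≃ₐ[K] Ω) (φ : S →ₐ[R] Ω) (s : S) :
    galPt hx σ φ s = σ (φ s) := rfl

/-- A point of an Artin and Schreier cover. -/
theorem exists_asPoint (T : Type u) [CommRing T] [Algebra R T] (p : ℕ) [Fact p.Prime] [CharP T p]
    (a : T) (W : Type u) [CommRing W] [Algebra R W] [Algebra T W] [IsScalarTower R T W]
    (root : W)
    (hlift : ∀ (B : Type u) [CommRing B] [Algebra T B] (x : B), x ^ p - x = algebraMap T B a →
      ∃ g : W →ₐ[T] B, g root = x)
    (B : Type u) [CommRing B] [Algebra R B] (Φ : T →ₐ[R] B) (w : B) (hw : w ^ p - w = Φ a) :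
    ∃ g : W →ₐ[R] B, g.comp (IsScalarTower.toAlgHom R T W) = Φ ∧ g root = w := by
  letI : Algebra T B := Φ.toRingHom.toAlgebra
  haveI : IsScalarTower R T B := IsScalarTower.of_algebraMap_eq fun r => (Φ.commutes r).symm
  obtain ⟨g, hg⟩ := hlift B w hw
  refine ⟨g.restrictScalars R, ?_, hg⟩
  ext t
  exact g.commutes t

theorem as_hom_ext (T : Type u) [CommRing T] [Algebra R T]
    (W : Type u) [CommRing W] [Algebra R W] [Algebra T W] [IsScalarTower R T W]
    (root : W)
    (hext : ∀ (B : Type u) [CommRing B] [Algebra T B] (f g : W →ₐ[T] B), f root = g root → f = g)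
    (B : Type u) [CommRing B] [Algebra R B] (f g : W →ₐ[R] B)
    (h : f.comp (IsScalarTower.toAlgHom R T W) = g.comp (IsScalarTower.toAlgHom R T W))
    (hr : f root = g root) : f = g := by
  letI : Algebra T B := (f.comp (IsScalarTower.toAlgHom R T W)).toRingHom.toAlgebra
  let f' : W →ₐ[T] B := { (f : W →+* B) with commutes' := fun t => rfl }
  let g' : W →ₐ[T] B := { (g : W →+* B) with
    commutes' := fun t => by
      change (g.comp (IsScalarTower.toAlgHom R T W)) t = (f.comp (IsScalarTower.toAlgHom R T W)) t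
      rw [h] }
  have := hext B f' g' hr
  ext w
  exact congrArg (fun k : W →ₐ[T] B => k w) this

/-- The key step: the two points of an Artin and Schreier cover. -/
theorem as_key [IsSepClosure K Ω] (p : ℕ) [Fact p.Prime] [CharP K p]
    (hx : ∀ r : R, ∃ k : K, algebraMap R Ω r = algebraMap K Ω k)
    (act : ∀ (S : Type u) [CommRing S] [Algebra R S], Module.Finite R S → Algebra.Etale R S →
      (S →ₐ[R] Ω) → (S →ₐ[R] Ω))
    (hnat : ∀ (S S' : Type u) [CommRing S] [CommRing S'] [Algebra R S] [Algebra R S']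
      (h1 : Module.Finite R S) (h2 : Algebra.Etale R S) (h1' : Module.Finite R S')
      (h2' : Algebra.Etale R S') (f : S →ₐ[R] S') (φ : S' →ₐ[R] Ω),
      act S h1 h2 (φ.comp f) = (act S' h1' h2' φ).comp f)
    (hgal : ∀ (S : Type u) [CommRing S] [Algebra R S] (h1 : Module.Finite R S)
      (h2 : Algebra.Etale R S) (σ : Ω ≃ₐ[K] Ω) (φ : S →ₐ[R] Ω),
      act S h1 h2 (galPt hx σ φ) = galPt hx σ (act S h1 h2 φ))
    (L : IntermediateField K Ω)
    (T : Type u) [CommRing T] [Algebra R T] [CharP T p] (h1 : Module.Finite R T)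
    (h2 : Algebra.Etale R T) (Φ : T →ₐ[R] Ω) (hΦ : ∀ t, Φ t ∈ L) (a : T) :
    ∃ b : L, (b : Ω) ^ p - b = act T h1 h2 Φ a - Φ a := by
  haveI : IsSepClosed Ω := IsSepClosure.sep_closed K
  haveI : Algebra.IsSeparable K Ω := IsSepClosure.separable
  haveI : IsGalois K Ω := inferInstance
  haveI : CharP Ω p := charP_of_injective_algebraMap (algebraMap K Ω).injective p
  have hp : 1 < p := (Fact.out : p.Prime).one_lt
  -- the Artin and Schreier cover
  obtain ⟨W, cW, rW, tW, sW, w1, w2, root, hroot, hlift, hext⟩ :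
      ∃ (W : Type u) (_ : CommRing W) (_ : Algebra R W) (_ : Algebra T W)
        (_ : IsScalarTower R T W) (_ : Module.Finite R W) (_ : Algebra.Etale R W) (root : W),
        root ^ p - root = algebraMap T W a ∧
        (∀ (B : Type u) [CommRing B] [Algebra T B] (x : B), x ^ p - x = algebraMap T B a →
          ∃ g : W →ₐ[T] B, g root = x) ∧
        (∀ (B : Type u) [CommRing B] [Algebra T B] (f g : W →ₐ[T] B), f root = g root → f = g) := by
    letI : Algebra R (asPair T p a).Ring :=
      ((algebraMap T (asPair T p a).Ring).comp (algebraMap R T)).toAlgebra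
    haveI : IsScalarTower R T (asPair T p a).Ring := IsScalarTower.of_algebraMap_eq' rfl
    haveI := h1
    haveI := h2
    refine ⟨(asPair T p a).Ring, inferInstance, inferInstance, inferInstance, inferInstance,
      Module.Finite.trans T _, Algebra.Etale.comp R T _, (asPair T p a).X, ?_, ?_, ?_⟩
    · exact (asPair_hasMap T p a _).mp StandardEtalePair.hasMap_X
    · intro B _ _ x hx
      exact ⟨(asPair T p a).lift x ((asPair_hasMap T p a x).mpr hx), StandardEtalePair.lift_X _ _ _⟩
    · intro B _ _ f g h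
      exact StandardEtalePair.hom_ext h
  -- a root
  obtain ⟨w0, hw0⟩ : ∃ w0 : Ω, w0 ^ p - w0 = Φ a := by
    obtain ⟨x, hx⟩ := IsSepClosed.exists_root_C_mul_X_pow_add_C_mul_X_add_C (k := Ω) (n := p)
      (1 : Ω) (-1) (-Φ a) (CharP.cast_eq_zero Ω p) hp (by simp)
    exact ⟨x, by linear_combination hx⟩
  obtain ⟨P, hP, hPr⟩ := exists_asPoint T p a W root hlift Ω Φ w0 hw0
  -- the image of the point
  have hQ : (act W w1 w2 P).comp (IsScalarTower.toAlgHom R T W) = act T h1 h2 Φ := by
    rw [← hnat T W h1 h2 w1 w2, hP]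
  have hQr : (act W w1 w2 P root) ^ p - act W w1 w2 P root = act T h1 h2 Φ a := by
    rw [← map_pow, ← map_sub, hroot, ← hQ]
    rfl
  have hfix : act W w1 w2 P root - w0 ∈ L := by
    rw [← InfiniteGalois.fixedField_fixingSubgroup L, IntermediateField.mem_fixedField_iff]
    intro σ hσ
    rw [IntermediateField.mem_fixingSubgroup_iff] at hσ
    -- the difference of the roots
    have hd : (σ w0 - w0) ^ p = σ w0 - w0 := by
      have h3 : (σ w0) ^ p - σ w0 = Φ a := by
        rw [← map_pow, ← map_sub, hw0, hσ _ (hΦ a)]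
      rw [sub_pow_char]
      linear_combination h3 - hw0
    obtain ⟨n, hn⟩ := (mem_bot_iff_intCast p Ω).mp ((Subfield.mem_bot_iff_pow_eq_self Ω p).mpr hd)
    -- the deck transformation
    haveI : Nontrivial W := P.toRingHom.domain_nontrivial
    haveI : CharP W p := by
      rw [CharP.charP_iff_prime_eq_zero Fact.out, ← map_natCast (algebraMap T W),
        CharP.cast_eq_zero T p, map_zero]
    have hW : ((n : W)) ^ p = (n : W) := by
      have h3 : (((n : ZMod p)) ^ p) = (n : ZMod p) := ZMod.pow_card _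
      have h4 := congrArg (ZMod.castHom (dvd_refl p) W) h3
      rwa [map_pow, map_intCast] at h4
    obtain ⟨D, hD, hDr⟩ := exists_asPoint T p a W root hlift W (IsScalarTower.toAlgHom R T W)
      (root + n) (by
        rw [add_pow_char, hW, IsScalarTower.coe_toAlgHom', ← hroot]
        ring)
    have h4 : P.comp D = galPt hx σ P := by
      apply as_hom_ext T W root hext
      · rw [AlgHom.comp_assoc, hD, hP]
        ext t
        change Φ t = galPt hx σ P (algebraMap T W t)
        rw [galPt_apply]
        have : P (algebraMap T W t) = Φ t := by rw [← hP]; rfl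
        rw [this, hσ _ (hΦ t)]
      · rw [AlgHom.comp_apply, hDr, map_add, hPr, galPt_apply, hPr, map_intCast, hn]
        ring
    have h5 := hnat W W w1 w2 w1 w2 D P
    rw [h4, hgal] at h5
    have h6 := congrArg (fun k : W →ₐ[R] Ω => k root) h5
    simp only [galPt_apply, AlgHom.comp_apply] at h6
    rw [hDr, map_add, map_intCast, hn] at h6
    change σ (act W w1 w2 P root - w0) = _
    rw [map_sub, h6]
    ring
  refine ⟨⟨_, hfix⟩, ?_⟩
  change (act W w1 w2 P root - w0) ^ p - (act W w1 w2 P root - w0) = _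
  rw [sub_pow_char]
  linear_combination hQr - hw0

/-- A natural operation on the points of the finite étale covers which commutes with the Galois group
and is trivial on the covers coming from the base field is trivial. -/
theorem act_trivial [IsSepClosure K Ω] (p : ℕ) [Fact p.Prime] [CharP K p]
    (hK : ∃ a : K, ∀ b : K, b ^ p - b ≠ a)
    (hx : ∀ r : R, ∃ k : K, algebraMap R Ω r = algebraMap K Ω k)
    (act : ∀ (S : Type u) [CommRing S] [Algebra R S], Module.Finite R S → Algebra.Etale R S →
      (S →ₐ[R] Ω) → (S →ₐ[R] Ω))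
    (hnat : ∀ (S S' : Type u) [CommRing S] [CommRing S'] [Algebra R S] [Algebra R S']
      (h1 : Module.Finite R S) (h2 : Algebra.Etale R S) (h1' : Module.Finite R S')
      (h2' : Algebra.Etale R S') (f : S →ₐ[R] S') (φ : S' →ₐ[R] Ω),
      act S h1 h2 (φ.comp f) = (act S' h1' h2' φ).comp f)
    (hgal : ∀ (S : Type u) [CommRing S] [Algebra R S] (h1 : Module.Finite R S)
      (h2 : Algebra.Etale R S) (σ : Ω ≃ₐ[K] Ω) (φ : S →ₐ[R] Ω),
      act S h1 h2 (galPt hx σ φ) = galPt hx σ (act S h1 h2 φ))
    (hgeo : ∀ (L : Type u) [Field L] [Algebra K L] (_ : Module.Finite K L)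
      (_ : Algebra.Etale K L) (h1 : Module.Finite R (R ⊗[K] L))
      (h2 : Algebra.Etale R (R ⊗[K] L)) (φ : R ⊗[K] L →ₐ[R] Ω), act (R ⊗[K] L) h1 h2 φ = φ)
    (S : Type u) [CommRing S] [Algebra R S] (h1 : Module.Finite R S) (h2 : Algebra.Etale R S)
    (φ : S →ₐ[R] Ω) : act S h1 h2 φ = φ := by
  haveI : IsSepClosed Ω := IsSepClosure.sep_closed K
  haveI : Algebra.IsSeparable K Ω := IsSepClosure.separable
  haveI : CharP Ω p := charP_of_injective_algebraMap (algebraMap K Ω).injective p
  letI : Algebra K S := ((algebraMap R S).comp (algebraMap K R)).toAlgebra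
  haveI : IsScalarTower K R S := IsScalarTower.of_algebraMap_eq' rfl
  obtain ⟨L, hLfd, hL⟩ : ∃ L : IntermediateField K Ω, FiniteDimensional K L ∧ ∀ s, φ s ∈ L := by
    obtain ⟨G, hG⟩ : (⊤ : Submodule R S).FG := h1.fg_top
    haveI : Finite (φ '' (G : Set S)) := (G.finite_toSet.image φ)
    refine ⟨IntermediateField.adjoin K (φ '' (G : Set S)),
      IntermediateField.finiteDimensional_adjoin (fun x _ => Algebra.IsIntegral.isIntegral x), ?_⟩
    intro s
    have hs : s ∈ Submodule.span R (G : Set S) := hG ▸ Submodule.mem_top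
    induction hs using Submodule.span_induction with
    | mem x hx => exact IntermediateField.subset_adjoin K _ ⟨x, hx, rfl⟩
    | zero => rw [map_zero]; exact zero_mem _
    | add x y _ _ hx hy => rw [map_add]; exact add_mem hx hy
    | smul r x _ ih =>
      rw [map_smul, Algebra.smul_def]
      obtain ⟨k, hk⟩ := hx r
      rw [hk]
      exact mul_mem (IntermediateField.algebraMap_mem _ k) ih
  haveI : Algebra.IsSeparable K L := inferInstance
  haveI hLe : Algebra.Etale K L := ⟨Algebra.FormallyEtale.of_isSeparable K L,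
    Algebra.FinitePresentation.of_finiteType.mp inferInstance⟩
  haveI := h1
  haveI := h2
  -- the cover with the constants of `L`
  have t1 : Module.Finite R (S ⊗[K] L) := Module.Finite.trans S _
  have t2 : Algebra.Etale R (S ⊗[K] L) := Algebra.Etale.comp R S _
  have r1 : Module.Finite R (R ⊗[K] L) := inferInstance
  have r2 : Algebra.Etale R (R ⊗[K] L) := inferInstance
  let Φ : S ⊗[K] L →ₐ[R] Ω :=
    Algebra.TensorProduct.lift φ L.val (fun _ _ => Commute.all _ _)
  have hΦ : ∀ s c, Φ (s ⊗ₜ c) = φ s * (c : Ω) := fun s c => rfl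
  have hΦL : ∀ t, Φ t ∈ L := by
    intro t
    induction t using TensorProduct.induction_on with
    | zero => rw [map_zero]; exact zero_mem _
    | add x y hx hy => rw [map_add]; exact add_mem hx hy
    | tmul s c => rw [hΦ]; exact mul_mem (hL s) c.2
  haveI : Nontrivial (S ⊗[K] L) := Φ.toRingHom.domain_nontrivial
  haveI : CharP (S ⊗[K] L) p :=
    charP_of_injective_algebraMap (algebraMap K (S ⊗[K] L)).injective p
  -- the restrictions of the image of the point
  let i1 : S →ₐ[R] S ⊗[K] L := Algebra.TensorProduct.includeLeft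
  let i2 : R ⊗[K] L →ₐ[R] S ⊗[K] L :=
    Algebra.TensorProduct.map (Algebra.ofId R S) (AlgHom.id K L)
  have e1 : ∀ s, act _ t1 t2 Φ (s ⊗ₜ 1) = act S h1 h2 φ s := by
    intro s
    have h3 := hnat S (S ⊗[K] L) h1 h2 t1 t2 i1 Φ
    have h4 : Φ.comp i1 = φ := by
      ext s
      change Φ (s ⊗ₜ 1) = φ s
      rw [hΦ]
      simp
    rw [h4] at h3
    rw [h3]
    rfl
  have e2 : ∀ c : L, act _ t1 t2 Φ (1 ⊗ₜ c) = (c : Ω) := by
    intro c
    have h3 := hnat (R ⊗[K] L) (S ⊗[K] L) r1 r2 t1 t2 i2 Φ
    rw [hgeo L inferInstance hLe r1 r2] at h3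
    have h4 := congrArg (fun k : R ⊗[K] L →ₐ[R] Ω => k (1 ⊗ₜ c)) h3
    simp only [AlgHom.comp_apply] at h4
    have h5 : i2 (1 ⊗ₜ c) = 1 ⊗ₜ c := by
      change Algebra.TensorProduct.map (Algebra.ofId R S) (AlgHom.id K L) (1 ⊗ₜ c) = _
      rw [Algebra.TensorProduct.map_tmul, map_one]
      rfl
    rw [h5, hΦ, map_one, one_mul] at h4
    exact h4.symm
  have e3 : ∀ s c, act _ t1 t2 Φ (s ⊗ₜ c) = act S h1 h2 φ s * (c : Ω) := by
    intro s c
    rw [← e1, ← e2, ← map_mul, Algebra.TensorProduct.tmul_mul_tmul, mul_one, one_mul]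
  -- the values are in `L`
  ext s
  by_contra hne
  have key : ∀ c : L, ∃ b : L, (b : Ω) ^ p - b = act S h1 h2 φ s * c - φ s * c := by
    intro c
    obtain ⟨b, hb⟩ := as_key p hx act hnat hgal L (S ⊗[K] L) t1 t2 Φ hΦL (s ⊗ₜ c)
    exact ⟨b, by rw [hb, e3, hΦ]⟩
  have hdL : act S h1 h2 φ s - φ s ∈ L := by
    obtain ⟨b, hb⟩ := key 1
    have h3 : act S h1 h2 φ s - φ s = (b : Ω) ^ p - b := by
      rw [hb]
      simp
    rw [h3]
    exact sub_mem (pow_mem b.2 p) b.2
  obtain ⟨a, ha⟩ := hK
  obtain ⟨b, hb⟩ := artinSchreier_descend K L p (⟨_, hdL⟩ : L)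
    (fun h => hne (sub_eq_zero.mp (congrArg Subtype.val h))) (by
      intro c
      obtain ⟨b, hb⟩ := key c
      refine ⟨b, Subtype.ext ?_⟩
      change (b : Ω) ^ p - b = (c : Ω) * (act S h1 h2 φ s - φ s)
      rw [hb]
      ring) a
  exact ha b hb

end Points

end Pool.Agent.V5helper86.GF
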