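import Mathlib

/-!
# The étale fundamental group of a scheme
-/

set_option autoImplicit false

universe u

open CategoryTheory AlgebraicGeometry Limits

namespace Pool.Agent.V5helper86.GF

/-- A finite étale cover of a scheme. -/
structure Cover (X : Scheme.{u}) where
  /-- the total space -/
  left : Scheme.{u}
  /-- the projection -/
  hom : left ⟶ X
  finite : IsFinite hom
  etale : Etale hom

/-- The fibre of a cover at a geometric point: the set of the points over the given point. -/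
def Fibre {X : Scheme.{u}} {Ω : Type u} [Field Ω] (xbar : Spec (.of Ω) ⟶ X) (Y : Cover X) :
    Type u :=
  {y : Spec (.of Ω) ⟶ Y.left // y ≫ Y.hom = xbar}

theorem comp_comp_hom {X : Scheme.{u}} {Ω : Type u} [Field Ω] {xbar : Spec (.of Ω) ⟶ X}
    {Y Z : Cover X} (f : Y.left ⟶ Z.left) (hf : f ≫ Z.hom = Y.hom) (y : Fibre xbar Y) :
    (y.1 ≫ f) ≫ Z.hom = xbar := by
  rw [Category.assoc, hf, y.2]

/-- The map of the fibres given by a morphism of covers. -/
noncomputable def Fibre.map {X : Scheme.{u}} {Ω : Type u} [Field Ω] {xbar : Spec (.of Ω) ⟶ X}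
    {Y Z : Cover X} (f : Y.left ⟶ Z.left) (hf : f ≫ Z.hom = Y.hom) (y : Fibre xbar Y) :
    Fibre xbar Z :=
  ⟨y.1 ≫ f, comp_comp_hom f hf y⟩

/-- A family of permutations of the fibres of all covers is natural if it commutes with the maps
given by the morphisms of covers. -/
def IsNatural {X : Scheme.{u}} {Ω : Type u} [Field Ω] (xbar : Spec (.of Ω) ⟶ X)
    (γ : ∀ Y : Cover X, Equiv.Perm (Fibre xbar Y)) : Prop :=
  ∀ (Y Z : Cover X) (f : Y.left ⟶ Z.left) (hf : f ≫ Z.hom = Y.hom) (y : Fibre xbar Y),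
    γ Z (Fibre.map f hf y) = Fibre.map f hf (γ Y y)

theorem isNatural_mul {X : Scheme.{u}} {Ω : Type u} [Field Ω] {xbar : Spec (.of Ω) ⟶ X}
    {γ δ : ∀ Y : Cover X, Equiv.Perm (Fibre xbar Y)} (hγ : IsNatural xbar γ)
    (hδ : IsNatural xbar δ) : IsNatural xbar (γ * δ) := by
  intro Y Z f hf y
  rw [Pi.mul_apply, Pi.mul_apply, Equiv.Perm.mul_apply, Equiv.Perm.mul_apply, hδ, hγ]

theorem isNatural_one {X : Scheme.{u}} {Ω : Type u} [Field Ω] {xbar : Spec (.of Ω) ⟶ X} :
    IsNatural xbar 1 := fun _ _ _ _ _ => rfl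

theorem isNatural_inv {X : Scheme.{u}} {Ω : Type u} [Field Ω] {xbar : Spec (.of Ω) ⟶ X}
    {γ : ∀ Y : Cover X, Equiv.Perm (Fibre xbar Y)} (hγ : IsNatural xbar γ) :
    IsNatural xbar γ⁻¹ := by
  intro Y Z f hf y
  have h : γ Y ((γ Y)⁻¹ y) = y := (γ Y).apply_symm_apply y
  rw [Pi.inv_apply, Pi.inv_apply, Equiv.Perm.inv_eq_iff_eq, hγ, h]

/-- The étale fundamental group of a scheme at a geometric point: the automorphisms of the fibre
functor, that is the natural families of permutations of the fibres of all finite étale covers. -/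
def PiOne {X : Scheme.{u}} {Ω : Type u} [Field Ω] (xbar : Spec (.of Ω) ⟶ X) :
    Subgroup (∀ Y : Cover X, Equiv.Perm (Fibre xbar Y)) where
  carrier := {γ | IsNatural xbar γ}
  mul_mem' := isNatural_mul
  one_mem' := isNatural_one
  inv_mem' := isNatural_inv

/-- The geometric point over a rational point. -/
noncomputable def geomPt (K Ω : Type u) [Field K] [Field Ω] [Algebra K Ω] {X : Scheme.{u}}
    (x : Spec (.of K) ⟶ X) : Spec (.of Ω) ⟶ X :=
  Spec.map (CommRingCat.ofHom (algebraMap K Ω)) ≫ x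

section Section
variable {K Ω : Type u} [Field K] [Field Ω] [Algebra K Ω] {X : Scheme.{u}}

/-- The morphism `Spec σ` for an automorphism `σ` of `Ω`. -/
noncomputable def specAut (σ : Ω ≃ₐ[K] Ω) :
    Spec (CommRingCat.of Ω) ⟶ Spec (CommRingCat.of Ω) :=
  Spec.map (CommRingCat.ofHom (σ : Ω →+* Ω))

theorem specAut_geomPt (x : Spec (.of K) ⟶ X) (σ : Ω ≃ₐ[K] Ω) :
    specAut σ ≫ geomPt K Ω x = geomPt K Ω x := by
  unfold geomPt specAut
  rw [← Category.assoc, ← Spec.map_comp, ← CommRingCat.ofHom_comp]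
  congr 3
  ext k
  exact σ.commutes k

theorem specAut_one : specAut (1 : Ω ≃ₐ[K] Ω) = 𝟙 _ := by
  have : CommRingCat.ofHom ((1 : Ω ≃ₐ[K] Ω) : Ω →+* Ω) = 𝟙 _ := rfl
  unfold specAut
  rw [this, Spec.map_id]

theorem specAut_mul (σ τ : Ω ≃ₐ[K] Ω) : specAut (σ * τ) = specAut σ ≫ specAut τ := by
  unfold specAut
  rw [← Spec.map_comp]
  rfl

theorem comp_specAut (x : Spec (.of K) ⟶ X) (σ : Ω ≃ₐ[K] Ω) (Y : Cover X)
    (y : Fibre (geomPt K Ω x) Y) : (specAut σ ≫ y.1) ≫ Y.hom = geomPt K Ω x := by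
  rw [Category.assoc, y.2, specAut_geomPt]

/-- An element `σ` of the Galois group maps a point `y` of a cover over a rational point to
the composition of `Spec σ` and `y`. -/
noncomputable def galPoint (x : Spec (.of K) ⟶ X) (σ : Ω ≃ₐ[K] Ω) (Y : Cover X)
    (y : Fibre (geomPt K Ω x) Y) : Fibre (geomPt K Ω x) Y :=
  ⟨specAut σ ≫ y.1, comp_specAut x σ Y y⟩

theorem galPoint_one (x : Spec (.of K) ⟶ X) (Y : Cover X) (y : Fibre (geomPt K Ω x) Y) :
    galPoint x 1 Y y = y := by
  apply Subtype.ext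
  change specAut (1 : Ω ≃ₐ[K] Ω) ≫ y.1 = y.1
  rw [specAut_one, Category.id_comp]

theorem galPoint_mul (x : Spec (.of K) ⟶ X) (σ τ : Ω ≃ₐ[K] Ω) (Y : Cover X)
    (y : Fibre (geomPt K Ω x) Y) :
    galPoint x (σ * τ) Y y = galPoint x σ Y (galPoint x τ Y y) := by
  apply Subtype.ext
  change specAut (σ * τ) ≫ y.1 = specAut σ ≫ specAut τ ≫ y.1
  rw [specAut_mul, Category.assoc]

theorem galPoint_left_inv (x : Spec (.of K) ⟶ X) (σ : Ω ≃ₐ[K] Ω) (Y : Cover X) :
    Function.LeftInverse (galPoint x σ⁻¹ Y) (galPoint x σ Y) := fun y => by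
  rw [← galPoint_mul, inv_mul_cancel, galPoint_one]

theorem galPoint_right_inv (x : Spec (.of K) ⟶ X) (σ : Ω ≃ₐ[K] Ω) (Y : Cover X) :
    Function.RightInverse (galPoint x σ⁻¹ Y) (galPoint x σ Y) := fun y => by
  rw [← galPoint_mul, mul_inv_cancel, galPoint_one]

/-- The permutation of the fibre of a cover over a rational point defined by `σ`. -/
noncomputable def galPerm (x : Spec (.of K) ⟶ X) (σ : Ω ≃ₐ[K] Ω) (Y : Cover X) :
    Equiv.Perm (Fibre (geomPt K Ω x) Y) :=
  ⟨galPoint x σ Y, galPoint x σ⁻¹ Y, galPoint_left_inv x σ Y, galPoint_right_inv x σ Y⟩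

theorem galPerm_mem (x : Spec (.of K) ⟶ X) (σ : Ω ≃ₐ[K] Ω) :
    galPerm x σ ∈ PiOne (geomPt K Ω x) := by
  intro Y Z f hf y
  exact Subtype.ext (Category.assoc _ _ _).symm

/-- The section of the fundamental group defined by a rational point `x`: the element `σ` of the
Galois group maps the point `y` of a cover over `x` to the composition of `Spec σ` and `y`. -/
noncomputable def sec (x : Spec (.of K) ⟶ X) (σ : Ω ≃ₐ[K] Ω) : PiOne (geomPt K Ω x) :=
  ⟨galPerm x σ, galPerm_mem x σ⟩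

theorem sec_mul (x : Spec (.of K) ⟶ X) (σ τ : Ω ≃ₐ[K] Ω) : sec x (σ * τ) = sec x σ * sec x τ := by
  apply Subtype.ext
  funext Y
  ext y
  exact galPoint_mul x σ τ Y y

end Section

/-- The fundamental group of `X` at the geometric point over a rational point `x`. -/
abbrev Pi (K Ω : Type u) [Field K] [Field Ω] [Algebra K Ω] {X : Scheme.{u}}
    (x : Spec (.of K) ⟶ X) : Type (u + 1) :=
  PiOne (geomPt K Ω x)

/-- An element `γ` of the fundamental group of `X` is geometric, with respect to a morphism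
`f : X ⟶ S`, if it acts trivially on the covers of `X` that are base changes of covers of `S`, that
is, if it is in the kernel of the homomorphism from the fundamental group of `X` to that of `S`. -/
def IsGeometric {X S : Scheme.{u}} {Ω : Type u} [Field Ω] (f : X ⟶ S) {xbar : Spec (.of Ω) ⟶ X}
    (γ : PiOne xbar) : Prop :=
  ∀ (Z : Cover S) (Y : Cover X) (g : Y.left ⟶ Z.left), IsPullback g Y.hom Z.hom f →
    ∀ y : Fibre xbar Y, γ.1 Y y = y

/-- An element `γ` of the fundamental group at a rational point `x` is fixed by the Galois group if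
`s_x(σ) γ s_x(σ)⁻¹ = γ` for all `σ`. -/
def IsFixed {K Ω : Type u} [Field K] [Field Ω] [Algebra K Ω] {X : Scheme.{u}}
    (x : Spec (.of K) ⟶ X) (γ : Pi K Ω x) : Prop :=
  ∀ σ : Ω ≃ₐ[K] Ω, sec x σ * γ * (sec x σ)⁻¹ = γ

end Pool.Agent.V5helper86.GF
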