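import Pool.Agent.V5helper86.GF.Alg
import Pool.Agent.V5helper86.GF.PiOne

/-!
# Elements of the fundamental group of an affine scheme which are fixed by the Galois group
-/

set_option autoImplicit false
set_option linter.style.haveILetI false
set_option linter.unusedSectionVars false

universe u

open CategoryTheory AlgebraicGeometry Limits TensorProduct

namespace Pool.Agent.V5helper86.GF

section Affine
variable {R : Type u} [CommRing R] {X : Scheme.{u}} (i : Spec (.of R) ⟶ X) [IsIso i]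

/-- The cover defined by a finite étale algebra. -/
noncomputable def cov (S : Type u) [CommRing S] [Algebra R S] (h1 : Module.Finite R S)
    (h2 : Algebra.Etale R S) : Cover X where
  left := Spec (.of S)
  hom := Spec.map (CommRingCat.ofHom (algebraMap R S)) ≫ i
  finite := by
    have : IsFinite (Spec.map (CommRingCat.ofHom (algebraMap R S))) := by
      rw [IsFinite.SpecMap_iff]
      exact RingHom.finite_algebraMap.mpr h1
    infer_instance
  etale := by
    have : Etale (Spec.map (CommRingCat.ofHom (algebraMap R S))) := by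
      rw [HasRingHomProperty.Spec_iff (P := @Etale)]
      exact RingHom.etale_algebraMap.mpr h2
    infer_instance

variable {Ω : Type u} [Field Ω] [Algebra R Ω] (xbar : Spec (.of Ω) ⟶ X)
  (hbar : Spec.map (CommRingCat.ofHom (algebraMap R Ω)) ≫ i = xbar)

/-- The point of a cover defined by a homomorphism of algebras. -/
noncomputable def ptOf (S : Type u) [CommRing S] [Algebra R S] (h1 : Module.Finite R S)
    (h2 : Algebra.Etale R S) (φ : S →ₐ[R] Ω) : Fibre xbar (cov i S h1 h2) :=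
  ⟨Spec.map (CommRingCat.ofHom (φ : S →+* Ω)), by
    change Spec.map (CommRingCat.ofHom (φ : S →+* Ω)) ≫
      Spec.map (CommRingCat.ofHom (algebraMap R S)) ≫ i = xbar
    rw [← hbar, ← Category.assoc, ← Spec.map_comp, ← CommRingCat.ofHom_comp,
      AlgHom.comp_algebraMap]⟩

/-- The homomorphism of rings defined by a point of a cover. -/
noncomputable def homOf (S : Type u) [CommRing S] [Algebra R S] (h1 : Module.Finite R S)
    (h2 : Algebra.Etale R S) (y : Fibre xbar (cov i S h1 h2)) :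
    CommRingCat.of S ⟶ CommRingCat.of Ω :=
  Spec.preimage (R := .of S) (S := .of Ω) y.1

theorem map_homOf (S : Type u) [CommRing S] [Algebra R S] (h1 : Module.Finite R S)
    (h2 : Algebra.Etale R S) (y : Fibre xbar (cov i S h1 h2)) :
    Spec.map (homOf i xbar S h1 h2 y) = y.1 := Spec.map_preimage _

include hbar in
theorem comp_homOf (S : Type u) [CommRing S] [Algebra R S] (h1 : Module.Finite R S)
    (h2 : Algebra.Etale R S) (y : Fibre xbar (cov i S h1 h2)) :
    CommRingCat.ofHom (algebraMap R S) ≫ homOf i xbar S h1 h2 y =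
      CommRingCat.ofHom (algebraMap R Ω) := by
  apply Spec.map_injective
  rw [Spec.map_comp, map_homOf]
  have h3 : y.1 ≫ Spec.map (CommRingCat.ofHom (algebraMap R S)) ≫ i = xbar := y.2
  exact (cancel_mono i).mp ((Category.assoc _ _ _).trans (h3.trans hbar.symm))

/-- The homomorphism of algebras defined by a point of a cover. -/
noncomputable def algOf (S : Type u) [CommRing S] [Algebra R S] (h1 : Module.Finite R S)
    (h2 : Algebra.Etale R S) (y : Fibre xbar (cov i S h1 h2)) : S →ₐ[R] Ω :=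
  { (homOf i xbar S h1 h2 y).hom with
    commutes' := fun r => by
      have h3 := comp_homOf i xbar hbar S h1 h2 y
      exact congrArg (fun k => k.hom r) h3 }

theorem ptOf_algOf (S : Type u) [CommRing S] [Algebra R S] (h1 : Module.Finite R S)
    (h2 : Algebra.Etale R S) (y : Fibre xbar (cov i S h1 h2)) :
    ptOf i xbar hbar S h1 h2 (algOf i xbar hbar S h1 h2 y) = y := by
  apply Subtype.ext
  exact map_homOf i xbar S h1 h2 y

theorem algOf_ptOf (S : Type u) [CommRing S] [Algebra R S] (h1 : Module.Finite R S)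
    (h2 : Algebra.Etale R S) (φ : S →ₐ[R] Ω) :
    algOf i xbar hbar S h1 h2 (ptOf i xbar hbar S h1 h2 φ) = φ := by
  have h3 : homOf i xbar S h1 h2 (ptOf i xbar hbar S h1 h2 φ) =
      CommRingCat.ofHom (φ : S →+* Ω) := by
    apply Spec.map_injective
    rw [map_homOf]
    rfl
  ext s
  exact congrArg (fun k => k.hom s) h3

/-- The morphism of covers defined by a homomorphism of algebras. -/
noncomputable def covMap {S S' : Type u} [CommRing S] [Algebra R S] [CommRing S'] [Algebra R S']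
    (h1 : Module.Finite R S) (h2 : Algebra.Etale R S) (h1' : Module.Finite R S')
    (h2' : Algebra.Etale R S') (f : S →ₐ[R] S') :
    (cov i S' h1' h2').left ⟶ (cov i S h1 h2).left :=
  Spec.map (CommRingCat.ofHom (f : S →+* S'))

theorem covMap_hom {S S' : Type u} [CommRing S] [Algebra R S] [CommRing S'] [Algebra R S']
    (h1 : Module.Finite R S) (h2 : Algebra.Etale R S) (h1' : Module.Finite R S')
    (h2' : Algebra.Etale R S') (f : S →ₐ[R] S') :
    covMap i h1 h2 h1' h2' f ≫ (cov i S h1 h2).hom = (cov i S' h1' h2').hom := by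
  change Spec.map (CommRingCat.ofHom (f : S →+* S')) ≫
    Spec.map (CommRingCat.ofHom (algebraMap R S)) ≫ i =
    Spec.map (CommRingCat.ofHom (algebraMap R S')) ≫ i
  rw [← Category.assoc, ← Spec.map_comp, ← CommRingCat.ofHom_comp, AlgHom.comp_algebraMap]

theorem map_ptOf {S S' : Type u} [CommRing S] [Algebra R S] [CommRing S'] [Algebra R S']
    (h1 : Module.Finite R S) (h2 : Algebra.Etale R S) (h1' : Module.Finite R S')
    (h2' : Algebra.Etale R S') (f : S →ₐ[R] S') (φ : S' →ₐ[R] Ω) :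
    Fibre.map (covMap i h1 h2 h1' h2' f) (covMap_hom i h1 h2 h1' h2' f)
        (ptOf i xbar hbar S' h1' h2' φ) =
      ptOf i xbar hbar S h1 h2 (φ.comp f) := by
  apply Subtype.ext
  change Spec.map (CommRingCat.ofHom (φ : S' →+* Ω)) ≫ Spec.map (CommRingCat.ofHom (f : S →+* S')) =
    Spec.map (CommRingCat.ofHom ((φ.comp f : S →ₐ[R] Ω) : S →+* Ω))
  rw [← Spec.map_comp, ← CommRingCat.ofHom_comp]
  rfl

/-- The operation of an element of the fundamental group on the homomorphisms of algebras. -/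
noncomputable def actAlg (γ : PiOne xbar) (S : Type u) [CommRing S] [Algebra R S]
    (h1 : Module.Finite R S) (h2 : Algebra.Etale R S) (φ : S →ₐ[R] Ω) : S →ₐ[R] Ω :=
  algOf i xbar hbar S h1 h2 (γ.1 (cov i S h1 h2) (ptOf i xbar hbar S h1 h2 φ))

theorem ptOf_actAlg (γ : PiOne xbar) (S : Type u) [CommRing S] [Algebra R S]
    (h1 : Module.Finite R S) (h2 : Algebra.Etale R S) (φ : S →ₐ[R] Ω) :
    ptOf i xbar hbar S h1 h2 (actAlg i xbar hbar γ S h1 h2 φ) =
      γ.1 (cov i S h1 h2) (ptOf i xbar hbar S h1 h2 φ) := ptOf_algOf _ _ _ _ _ _ _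

theorem actAlg_natural (γ : PiOne xbar) (S S' : Type u) [CommRing S] [CommRing S'] [Algebra R S]
    [Algebra R S'] (h1 : Module.Finite R S) (h2 : Algebra.Etale R S) (h1' : Module.Finite R S')
    (h2' : Algebra.Etale R S') (f : S →ₐ[R] S') (φ : S' →ₐ[R] Ω) :
    actAlg i xbar hbar γ S h1 h2 (φ.comp f) = (actAlg i xbar hbar γ S' h1' h2' φ).comp f := by
  conv_rhs => rw [← algOf_ptOf i xbar hbar S h1 h2 ((actAlg i xbar hbar γ S' h1' h2' φ).comp f)]
  unfold actAlg
  rw [← map_ptOf i xbar hbar h1 h2 h1' h2', ← map_ptOf i xbar hbar h1 h2 h1' h2', ptOf_algOf,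
    γ.2]

/-- Two homomorphisms of algebras which define the same point are equal. -/
theorem ptOf_injective (S : Type u) [CommRing S] [Algebra R S] (h1 : Module.Finite R S)
    (h2 : Algebra.Etale R S) (φ ψ : S →ₐ[R] Ω)
    (h : ptOf i xbar hbar S h1 h2 φ = ptOf i xbar hbar S h1 h2 ψ) : φ = ψ := by
  rw [← algOf_ptOf i xbar hbar S h1 h2 φ, h, algOf_ptOf]

end Affine

section Main
variable {K Ω : Type u} [Field K] [Field Ω] [Algebra K Ω]

/-- The operation commutes with the Galois group. -/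
theorem actAlg_gal {R : Type u} [CommRing R] {X : Scheme.{u}} (i : Spec (.of R) ⟶ X) [IsIso i]
    [Algebra R Ω] (x : Spec (.of K) ⟶ X)
    (hbar : Spec.map (CommRingCat.ofHom (algebraMap R Ω)) ≫ i = geomPt K Ω x)
    (hx : ∀ r : R, ∃ k : K, algebraMap R Ω r = algebraMap K Ω k)
    (γ : PiOne (geomPt K Ω x)) (hfix : ∀ σ : Ω ≃ₐ[K] Ω, sec x σ * γ * (sec x σ)⁻¹ = γ)
    (S : Type u) [CommRing S] [Algebra R S] (h1 : Module.Finite R S)
    (h2 : Algebra.Etale R S) (σ : Ω ≃ₐ[K] Ω) (φ : S →ₐ[R] Ω) :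
    actAlg i _ hbar γ S h1 h2 (galPt hx σ φ) = galPt hx σ (actAlg i _ hbar γ S h1 h2 φ) := by
  have e1 : ∀ ψ : S →ₐ[R] Ω, ptOf i _ hbar S h1 h2 (galPt hx σ ψ) =
      (sec x σ).1 (cov i S h1 h2) (ptOf i _ hbar S h1 h2 ψ) := by
    intro ψ
    apply Subtype.ext
    change Spec.map (CommRingCat.ofHom ((σ : Ω →+* Ω).comp (ψ : S →+* Ω))) =
      Spec.map (CommRingCat.ofHom (σ : Ω →+* Ω)) ≫ Spec.map (CommRingCat.ofHom (ψ : S →+* Ω))
    rw [← Spec.map_comp]
    rfl
  have hcomm : γ * sec x σ = sec x σ * γ := by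
    have := hfix σ
    rw [mul_inv_eq_iff_eq_mul] at this
    exact this.symm
  apply ptOf_injective i _ hbar S h1 h2
  rw [ptOf_actAlg, e1, e1, ptOf_actAlg]
  exact congrArg (fun k => k.1 (cov i S h1 h2) (ptOf i _ hbar S h1 h2 φ)) hcomm

/-- The operation is trivial on the covers coming from the base field. -/
theorem actAlg_geom {R : Type u} [CommRing R] {X : Scheme.{u}} (i : Spec (.of R) ⟶ X) [IsIso i]
    [Algebra R Ω] [Algebra K R] [IsScalarTower K R Ω] (xbar : Spec (.of Ω) ⟶ X)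
    (hbar : Spec.map (CommRingCat.ofHom (algebraMap R Ω)) ≫ i = xbar)
    (f : X ⟶ Spec (.of K))
    (hf : i ≫ f = Spec.map (CommRingCat.ofHom (algebraMap K R)))
    (γ : PiOne xbar) (hγ : IsGeometric f γ)
    (L : Type u) [Field L] [Algebra K L] (hL1 : Module.Finite K L)
    (hL2 : Algebra.Etale K L) (h1 : Module.Finite R (R ⊗[K] L))
    (h2 : Algebra.Etale R (R ⊗[K] L)) (φ : R ⊗[K] L →ₐ[R] Ω) :
    actAlg i _ hbar γ (R ⊗[K] L) h1 h2 φ = φ := by
  have hq : Spec.map (CommRingCat.ofHom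
      ((Algebra.TensorProduct.includeRight : L →ₐ[K] R ⊗[K] L) : L →+* R ⊗[K] L)) ≫
      (cov (𝟙 (Spec (.of K))) L hL1 hL2).hom = (cov i (R ⊗[K] L) h1 h2).hom ≫ f := by
    change Spec.map (CommRingCat.ofHom
      ((Algebra.TensorProduct.includeRight : L →ₐ[K] R ⊗[K] L) : L →+* R ⊗[K] L)) ≫
      Spec.map (CommRingCat.ofHom (algebraMap K L)) ≫ 𝟙 _ =
      (Spec.map (CommRingCat.ofHom (algebraMap R (R ⊗[K] L))) ≫ i) ≫ f
    rw [Category.comp_id, Category.assoc, hf, ← Spec.map_comp, ← Spec.map_comp,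
      ← CommRingCat.ofHom_comp, ← CommRingCat.ofHom_comp]
    congr 2
    ext k
    change (1 : R) ⊗ₜ[K] algebraMap K L k = algebraMap K R k ⊗ₜ[K] (1 : L)
    rw [Algebra.algebraMap_eq_smul_one, Algebra.algebraMap_eq_smul_one, TensorProduct.smul_tmul]
  let Z : Cover (Spec (.of K)) := cov (𝟙 (Spec (.of K))) L hL1 hL2
  haveI := Z.finite
  haveI := Z.etale
  let P : Cover X := ⟨pullback Z.hom f, pullback.snd Z.hom f, inferInstance, inferInstance⟩
  obtain ⟨m, hm1, hm2⟩ : ∃ m : (cov i (R ⊗[K] L) h1 h2).left ⟶ pullback Z.hom f,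
      m ≫ pullback.fst Z.hom f = Spec.map (CommRingCat.ofHom
        ((Algebra.TensorProduct.includeRight : L →ₐ[K] R ⊗[K] L) : L →+* R ⊗[K] L)) ∧
      m ≫ pullback.snd Z.hom f = (cov i (R ⊗[K] L) h1 h2).hom :=
    ⟨pullback.lift _ _ hq, pullback.lift_fst _ _ _, pullback.lift_snd _ _ _⟩
  have hm : ∀ ψ : R ⊗[K] L →ₐ[R] Ω,
      Fibre.map (Y := cov i (R ⊗[K] L) h1 h2) (Z := P) m hm2 (ptOf i _ hbar _ h1 h2 φ) =
        Fibre.map (Y := cov i (R ⊗[K] L) h1 h2) (Z := P) m hm2 (ptOf i _ hbar _ h1 h2 ψ) →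
      φ = ψ := by
    intro ψ h
    have h3 : (Spec.map (CommRingCat.ofHom (φ : R ⊗[K] L →+* Ω)) ≫ m) ≫ pullback.fst Z.hom f =
      (Spec.map (CommRingCat.ofHom (ψ : R ⊗[K] L →+* Ω)) ≫ m) ≫ pullback.fst Z.hom f :=
      congrArg (fun k => k ≫ pullback.fst Z.hom f) (congrArg Subtype.val h)
    have h4 : Spec.map (CommRingCat.ofHom (φ : R ⊗[K] L →+* Ω)) ≫ Spec.map (CommRingCat.ofHom
      ((Algebra.TensorProduct.includeRight : L →ₐ[K] R ⊗[K] L) : L →+* R ⊗[K] L)) =
      Spec.map (CommRingCat.ofHom (ψ : R ⊗[K] L →+* Ω)) ≫ Spec.map (CommRingCat.ofHom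
      ((Algebra.TensorProduct.includeRight : L →ₐ[K] R ⊗[K] L) : L →+* R ⊗[K] L)) := by
      rw [← hm1]
      exact (Category.assoc _ _ _).symm.trans (h3.trans (Category.assoc _ _ _))
    rw [← Spec.map_comp, ← Spec.map_comp] at h4
    have h5 := Spec.map_injective h4
    apply Algebra.TensorProduct.ext
    · ext
    · ext c
      exact congrArg (fun k => k.hom c) h5
  apply (hm _ ?_).symm
  rw [ptOf_actAlg, ← γ.2]
  exact (hγ Z P (pullback.fst Z.hom f) (IsPullback.of_hasPullback _ _) _).symm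

/-- The theorem for a scheme which is isomorphic to the spectrum of `R`. -/
theorem eq_one_aux [IsSepClosure K Ω] (p : ℕ) [Fact p.Prime] [CharP K p]
    (hK : ∃ a : K, ∀ b : K, b ^ p - b ≠ a) {R : Type u} [CommRing R] {X : Scheme.{u}}
    (i : Spec (.of R) ⟶ X) [IsIso i] (f : X ⟶ Spec (.of K)) (x : Spec (.of K) ⟶ X)
    (hxf : x ≫ f = 𝟙 _) (γ : PiOne (geomPt K Ω x)) (hγ : IsGeometric f γ)
    (hfix : ∀ σ : Ω ≃ₐ[K] Ω, sec x σ * γ * (sec x σ)⁻¹ = γ) : γ = 1 := by
  letI : Algebra K R := (Spec.preimage (R := .of K) (S := .of R) (i ≫ f)).hom.toAlgebra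
  have hf : i ≫ f = Spec.map (CommRingCat.ofHom (algebraMap K R)) :=
    (Spec.map_preimage (R := .of K) (S := .of R) (i ≫ f)).symm
  let ρ : R →+* K := (Spec.preimage (R := .of R) (S := .of K) (x ≫ inv i)).hom
  have hρ : x ≫ inv i = Spec.map (CommRingCat.ofHom ρ) :=
    (Spec.map_preimage (R := .of R) (S := .of K) (x ≫ inv i)).symm
  letI : Algebra R Ω := ((algebraMap K Ω).comp ρ).toAlgebra
  have hbar : Spec.map (CommRingCat.ofHom (algebraMap R Ω)) ≫ i = geomPt K Ω x := by
    have h1 : CommRingCat.ofHom (algebraMap R Ω) =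
        CommRingCat.ofHom ρ ≫ CommRingCat.ofHom (algebraMap K Ω) := rfl
    rw [h1, Spec.map_comp, ← hρ]
    simp
    rfl
  have hx : ∀ r : R, ∃ k : K, algebraMap R Ω r = algebraMap K Ω k := fun r => ⟨ρ r, rfl⟩
  have hρK : ∀ k, ρ (algebraMap K R k) = k := by
    have h1 : CommRingCat.ofHom (algebraMap K R) ≫ CommRingCat.ofHom ρ = 𝟙 _ := by
      apply Spec.map_injective
      rw [Spec.map_comp, ← hρ, ← hf, Spec.map_id]
      simp [hxf]
    intro k
    exact congrArg (fun g => g.hom k) h1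
  haveI : IsScalarTower K R Ω := IsScalarTower.of_algebraMap_eq fun k => by
    change algebraMap K Ω k = algebraMap K Ω (ρ (algebraMap K R k))
    rw [hρK]
  have key := act_trivial p hK hx (actAlg i _ hbar γ) (actAlg_natural i _ hbar γ)
    (actAlg_gal i x hbar hx γ hfix)
    (fun L _ _ hL1 hL2 h1 h2 φ => actAlg_geom i _ hbar f hf γ hγ L hL1 hL2 h1 h2 φ)
  apply Subtype.ext
  funext Y
  ext y
  change γ.1 Y y = y
  haveI : IsAffine X := .of_isIso (inv i)
  haveI := Y.finite
  haveI := Y.etale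
  haveI : IsAffine Y.left := isAffine_of_isAffineHom Y.hom
  obtain ⟨S, cS, j, hj⟩ : ∃ (S : Type u) (_ : CommRing S) (j : Spec (.of S) ⟶ Y.left), IsIso j :=
    ⟨Γ(Y.left, ⊤), inferInstance, Y.left.isoSpec.inv, inferInstance⟩
  letI : Algebra R S := (Spec.preimage (R := .of R) (S := .of S) (j ≫ Y.hom ≫ inv i)).hom.toAlgebra
  have hS : j ≫ Y.hom ≫ inv i = Spec.map (CommRingCat.ofHom (algebraMap R S)) :=
    (Spec.map_preimage (R := .of R) (S := .of S) (j ≫ Y.hom ≫ inv i)).symm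
  have h1 : Module.Finite R S := by
    have h3 : IsFinite (Spec.map (CommRingCat.ofHom (algebraMap R S))) := by
      rw [← hS]
      infer_instance
    rw [IsFinite.SpecMap_iff] at h3
    exact RingHom.finite_algebraMap.mp h3
  have h2 : Algebra.Etale R S := by
    have h3 : Etale (Spec.map (CommRingCat.ofHom (algebraMap R S))) := by
      rw [← hS]
      infer_instance
    rw [HasRingHomProperty.Spec_iff (P := @Etale)] at h3
    exact RingHom.etale_algebraMap.mp h3
  have hji : j ≫ Y.hom = Spec.map (CommRingCat.ofHom (algebraMap R S)) ≫ i := by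
    rw [← hS]
    simp
  obtain ⟨y1, hy1⟩ : ∃ y1 : Spec (.of Ω) ⟶ Spec (.of S), y1 = y.1 ≫ inv j := ⟨_, rfl⟩
  let y' : Fibre (geomPt K Ω x) (cov i S h1 h2) := ⟨y1, by
    change y1 ≫ Spec.map (CommRingCat.ofHom (algebraMap R S)) ≫ i = _
    rw [← hji, hy1, Category.assoc, IsIso.inv_hom_id_assoc]
    exact y.2⟩
  have hy : Fibre.map (Y := cov i S h1 h2) (Z := Y) j hji y' = y := by
    apply Subtype.ext
    change y1 ≫ j = y.1
    rw [hy1, Category.assoc, IsIso.inv_hom_id, Category.comp_id]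
  have hy' : γ.1 (cov i S h1 h2) y' = y' := by
    rw [← ptOf_algOf i _ hbar S h1 h2 y', ← ptOf_actAlg, key]
  have hn := γ.2 (cov i S h1 h2) Y j hji y'
  rw [hy'] at hn
  rw [← hy]
  exact hn

/-- The main theorem. -/
theorem eq_one_of_fixed [IsSepClosure K Ω] (p : ℕ) [Fact p.Prime] [CharP K p]
    (hK : ∃ a : K, ∀ b : K, b ^ p - b ≠ a) (X : Scheme.{u}) [IsAffine X]
    (f : X ⟶ Spec (.of K)) (x : Spec (.of K) ⟶ X)
    (hxf : x ≫ f = 𝟙 _) (γ : PiOne (geomPt K Ω x)) (hγ : IsGeometric f γ)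
    (hfix : ∀ σ : Ω ≃ₐ[K] Ω, sec x σ * γ * (sec x σ)⁻¹ = γ) : γ = 1 := by
  obtain ⟨R, cR, i, hi⟩ : ∃ (R : Type u) (_ : CommRing R) (i : Spec (.of R) ⟶ X), IsIso i :=
    ⟨Γ(X, ⊤), inferInstance, X.isoSpec.inv, inferInstance⟩
  exact eq_one_aux p hK i f x hxf γ hγ hfix

end Main

end Pool.Agent.V5helper86.GF
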